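import Pool.Agent.MP_763ca5_pr.Proba

set_option autoImplicit false
set_option linter.unusedSectionVars false

open MeasureTheory ProbabilityTheory Filter unitInterval Finset Preorder
open scoped ENNReal NNReal Topology

namespace Pool.Agent.MP_763ca5_pr

variable {V : Type} [Fintype V] [DecidableEq V] [MeasurableSpace V] [MeasurableSingletonClass V]
variable (G : SimpleGraph V) [DecidableRel G.Adj]

/-- Extend a history to a trajectory. -/
def extd {t : ℕ} (h : (i : Finset.Iic t) → V) : ℕ → V :=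
  fun i => h ⟨min i t, Finset.mem_Iic.2 (min_le_right _ _)⟩

lemma extd_frestrictLe (t : ℕ) (ω : ℕ → V) (i : ℕ) (hi : i ≤ t) :
    extd (frestrictLe (π := fun _ => V) t ω) i = ω i := by
  simp [extd, frestrictLe_apply, min_eq_left hi]

lemma vis_congr {ω ω' : ℕ → V} {t : ℕ} (h : ∀ i ≤ t, ω i = ω' i) : vis ω t = vis ω' t := by
  unfold vis
  refine Finset.image_congr ?_
  intro i hi
  exact h i (by simpa [Nat.lt_succ_iff] using hi)

lemma newAt_congr {ω ω' : ℕ → V} {t : ℕ} (h : ∀ i ≤ t, ω i = ω' i) :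
    newAt ω t ↔ newAt ω' t := by
  unfold newAt
  rw [vis_congr h, h t le_rfl]
  have : (range t).image ω = (range t).image ω' := by
    refine Finset.image_congr ?_
    intro i hi
    exact h i (by simp at hi; omega)
  rw [this]

lemma vis_extd (t : ℕ) (ω : ℕ → V) :
    vis (extd (frestrictLe (π := fun _ => V) t ω)) t = vis ω t :=
  vis_congr fun i hi => extd_frestrictLe t ω i hi

lemma newAt_extd (t : ℕ) (ω : ℕ → V) :
    newAt (extd (frestrictLe (π := fun _ => V) t ω)) t ↔ newAt ω t :=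
  newAt_congr fun i hi => extd_frestrictLe t ω i hi

/-- At time `p.1` a vertex is discovered, not the last one, and during the next `p.2` steps
nothing new is visited. -/
def Ev (ω : ℕ → V) (p : ℕ × ℕ) : Prop := newAt ω p.1 ∧ ∀ i < p.2, ω (p.1 + 1 + i) ∈ vis ω p.1

instance (ω : ℕ → V) (p : ℕ × ℕ) : Decidable (Ev ω p) := by unfold Ev; infer_instance

lemma vis_mono (ω : ℕ → V) {s t : ℕ} (h : s ≤ t) : vis ω s ⊆ vis ω t := by
  unfold vis
  refine Finset.image_subset_image ?_
  intro a ha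
  simp only [Finset.mem_range] at ha ⊢
  omega

lemma Ev_not_univ {ω : ℕ → V} {p : ℕ × ℕ} (h : Ev ω p) : vis ω (p.1 + p.2) ≠ Finset.univ := by
  obtain ⟨t, j⟩ := p
  obtain ⟨h1, h2⟩ := h
  simp only at h1 h2 ⊢
  have : ∀ k ≤ j, vis ω (t + k) = vis ω t := by
    intro k hk
    induction k with
    | zero => rfl
    | succ k ih =>
      rw [← add_assoc, vis_succ, ih (by omega), Finset.insert_eq_of_mem]
      have := h2 k (by omega)
      rwa [show t + k + 1 = t + 1 + k by omega]
  rw [this j le_rfl]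
  exact h1.2

lemma Ev_inj_aux {ω : ℕ → V} {p q : ℕ × ℕ} (hp : Ev ω p) (hq : Ev ω q)
    (h : p.1 + p.2 = q.1 + q.2) : ¬ p.1 < q.1 := by
  intro hlt
  obtain ⟨i, hi⟩ : ∃ i, q.1 = p.1 + 1 + i := ⟨q.1 - (p.1 + 1), by omega⟩
  have h1 := hp.2 i (by omega)
  rw [← hi] at h1
  apply hq.1.1
  unfold vis at h1
  rw [Finset.mem_image] at h1 ⊢
  obtain ⟨a, ha, hae⟩ := h1
  exact ⟨a, by simp at ha ⊢; omega, hae⟩

lemma Ev_inj {ω : ℕ → V} {p q : ℕ × ℕ} (hp : Ev ω p) (hq : Ev ω q)
    (h : p.1 + p.2 = q.1 + q.2) : p = q := by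
  have h1 := Ev_inj_aux hp hq h
  have h2 := Ev_inj_aux hq hp h.symm
  ext <;> omega

lemma tsum_Ev_le (ω : ℕ → V) :
    ∑' p : ℕ × ℕ, (if Ev ω p then (1 : ℝ≥0∞) else 0) ≤ (coverTime ω : ℝ≥0∞) := by
  unfold coverTime
  rw [ENat.toENNReal_iInf]
  refine le_iInf fun T => ?_
  rw [ENat.toENNReal_iInf]
  refine le_iInf fun hT => ?_
  have hvis : vis ω T = Finset.univ := by
    ext y
    simp only [Finset.mem_univ, iff_true]
    obtain ⟨s, hs, he⟩ := hT y
    exact Finset.mem_image.2 ⟨s, by simp; omega, he⟩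
  rw [ENNReal.tsum_eq_iSup_sum]
  refine iSup_le fun s => ?_
  rw [← Finset.sum_filter, Finset.sum_const, nsmul_eq_mul, mul_one]
  have hcard : (s.filter (Ev ω)).card ≤ (range T).card := by
    refine Finset.card_le_card_of_injOn (fun p => p.1 + p.2) ?_ ?_
    · intro p hp
      have hp' : Ev ω p := (Finset.mem_filter.1 hp).2
      simp only [Finset.coe_range, Set.mem_Iio]
      by_contra hcon
      apply Ev_not_univ hp'
      have := vis_mono ω (show T ≤ p.1 + p.2 by omega)
      rw [hvis] at this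
      exact Finset.univ_subset_iff.1 this
    · intro p hp q hq h
      exact Ev_inj (Finset.mem_filter.1 hp).2 (Finset.mem_filter.1 hq).2 h
  rw [Finset.card_range] at hcard
  simpa using hcard

lemma measurableSet_vis_univ (t : ℕ) : MeasurableSet {ω : ℕ → V | vis ω t = Finset.univ} := by
  have : {ω : ℕ → V | vis ω t = Finset.univ} =
      (frestrictLe (π := fun _ => V) t) ⁻¹' {h | vis (extd h) t = Finset.univ} := by
    ext ω
    simp [vis_extd]
  rw [this]
  exact measurable_frestrictLe t (Set.toFinite _).measurableSet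

lemma measurable_hist (t : ℕ) {β : Type*} [MeasurableSpace β] (f : ((i : Finset.Iic t) → V) → β) :
    Measurable (fun ω : ℕ → V => f (frestrictLe t ω)) :=
  (measurable_of_finite f).comp (measurable_frestrictLe t)

lemma measurable_Dterm (j t : ℕ) :
    Measurable (fun ω : ℕ → V => if newAt ω t then g G (vis ω t) j (ω t) else (0 : ℝ≥0∞)) := by
  have : (fun ω : ℕ → V => if newAt ω t then g G (vis ω t) j (ω t) else (0 : ℝ≥0∞)) =
      fun ω : ℕ → V => (fun h : (i : Finset.Iic t) → V => if newAt (extd h) t then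
        g G (vis (extd h) t) j (extd h t) else (0 : ℝ≥0∞)) (frestrictLe t ω) := by
    funext ω
    simp only [newAt_extd, vis_extd, extd_frestrictLe t ω t le_rfl]
  rw [this]
  exact measurable_hist (V := V) t (fun h : (i : Finset.Iic t) → V => if newAt (extd h) t then
        g G (vis (extd h) t) j (extd h t) else (0 : ℝ≥0∞))

lemma measurable_Ev (p : ℕ × ℕ) :
    Measurable (fun ω : ℕ → V => if Ev ω p then (1 : ℝ≥0∞) else 0) := by
  have : (fun ω : ℕ → V => if Ev ω p then (1 : ℝ≥0∞) else 0) =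
      fun ω : ℕ → V => (fun h : (i : Finset.Iic (p.1 + p.2)) → V =>
        if Ev (extd h) p then (1 : ℝ≥0∞) else 0) (frestrictLe (p.1 + p.2) ω) := by
    funext ω
    have hE : Ev (extd (frestrictLe (π := fun _ => V) (p.1 + p.2) ω)) p ↔ Ev ω p := by
      unfold Ev
      have hc : ∀ i ≤ p.1 + p.2, extd (frestrictLe (π := fun _ => V) (p.1 + p.2) ω) i = ω i :=
        fun i hi => extd_frestrictLe _ ω i hi
      rw [newAt_congr (t := p.1) (fun i hi => hc i (by omega)),
        vis_congr (t := p.1) (fun i hi => hc i (by omega))]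
      apply and_congr_right
      intro _
      apply forall_congr'
      intro i
      apply imp_congr_right
      intro hi
      rw [hc _ (by omega)]
    simp only [hE]
  rw [this]
  exact measurable_hist (V := V) (p.1 + p.2) (fun h : (i : Finset.Iic (p.1 + p.2)) → V =>
        if Ev (extd h) p then (1 : ℝ≥0∞) else 0)

/-- One discovery: the probability of staying inside the visited set for `j` further steps. -/
lemma prob_Ev_ge (ε : I) (S : Strategy G) (v : V) (t j : ℕ) :
    (toNNReal (σ ε) : ℝ≥0∞) ^ j *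
        ∫⁻ ω, (if newAt ω t then g G (vis ω t) j (ω t) else 0) ∂(walkLaw G ε S v) ≤
      ∫⁻ ω, (if Ev ω (t, j) then 1 else 0) ∂(walkLaw G ε S v) := by
  have h := multi_step G ε S v j t (fun h => if newAt (extd h) t then 1 else 0)
    (fun h => vis (extd h) t)
  simp only [newAt_extd, vis_extd] at h
  refine le_trans (le_of_eq ?_) (h.trans (le_of_eq ?_))
  · congr 1
    refine lintegral_congr fun ω => ?_
    split_ifs <;> simp
  · refine lintegral_congr fun ω => ?_
    unfold Ev
    by_cases h1 : newAt ω t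
    · simp only [h1, if_true, one_mul, true_and]
    · simp only [h1, if_false, zero_mul, false_and]

lemma expected_ge (ε : I) (S : Strategy G) (v : V) (K : ℕ) :
    ∑ j ∈ range K, (toNNReal (σ ε) : ℝ≥0∞) ^ j *
      ∫⁻ ω, ∑' t : ℕ, (if newAt ω t then g G (vis ω t) j (ω t) else 0) ∂(walkLaw G ε S v) ≤
    expectedCoverTime G ε S v := by
  calc ∑ j ∈ range K, (toNNReal (σ ε) : ℝ≥0∞) ^ j *
        ∫⁻ ω, ∑' t : ℕ, (if newAt ω t then g G (vis ω t) j (ω t) else 0) ∂(walkLaw G ε S v)
      = ∑ j ∈ range K, ∑' t : ℕ, (toNNReal (σ ε) : ℝ≥0∞) ^ j *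
        ∫⁻ ω, (if newAt ω t then g G (vis ω t) j (ω t) else 0) ∂(walkLaw G ε S v) := by
        refine Finset.sum_congr rfl fun j _ => ?_
        rw [lintegral_tsum (fun t => (measurable_Dterm G j t).aemeasurable), ENNReal.tsum_mul_left]
    _ ≤ ∑ j ∈ range K, ∑' t : ℕ, ∫⁻ ω, (if Ev ω (t, j) then 1 else 0) ∂(walkLaw G ε S v) := by
        gcongr with j _ t
        exact prob_Ev_ge G ε S v t j
    _ ≤ ∑' j : ℕ, ∑' t : ℕ, ∫⁻ ω, (if Ev ω (t, j) then 1 else 0) ∂(walkLaw G ε S v) :=
        ENNReal.sum_le_tsum _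
    _ = ∑' p : ℕ × ℕ, ∫⁻ ω, (if Ev ω p then 1 else 0) ∂(walkLaw G ε S v) := by
        rw [ENNReal.tsum_comm, ← ENNReal.tsum_prod]
    _ = ∫⁻ ω, ∑' p : ℕ × ℕ, (if Ev ω p then 1 else 0) ∂(walkLaw G ε S v) := by
        rw [lintegral_tsum (fun p => (measurable_Ev p).aemeasurable)]
    _ ≤ ∫⁻ ω, (coverTime ω : ℝ≥0∞) ∂(walkLaw G ε S v) :=
        lintegral_mono fun ω => tsum_Ev_le ω

end Pool.Agent.MP_763ca5_pr
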