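import Mathlib

set_option autoImplicit false

open MeasureTheory ProbabilityTheory Filter unitInterval
open scoped ENNReal NNReal Topology

namespace Pool.Agent.MP_763ca5_pr

/-- A (possibly randomised) strategy of the controller on the graph `G`. For every time `t` and
every history `h = (x_0, ..., x_t)` of the walk it prescribes the law of the vertex picked by the
controller; this vertex is always a neighbour of the present vertex `x_t`. -/
structure Strategy {V : Type} (G : SimpleGraph V) where
  choice : (t : ℕ) → ((i : Finset.Iic t) → V) → PMF V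
  adj : ∀ (t : ℕ) (h : (i : Finset.Iic t) → V) (y : V),
    y ∈ (choice t h).support → G.Adj (h ⟨t, Finset.mem_Iic.2 le_rfl⟩) y

lemma Strategy.degree_pos {V : Type} [Fintype V] {G : SimpleGraph V} [DecidableRel G.Adj]
    (S : Strategy G) (t : ℕ) (h : (i : Finset.Iic t) → V) :
    0 < G.degree (h ⟨t, Finset.mem_Iic.2 le_rfl⟩) := by
  obtain ⟨y, hy⟩ := (S.choice t h).support_nonempty
  rw [G.degree_pos_iff_exists_adj]
  exact ⟨y, S.adj t h y hy⟩

/-- The cover time of a trajectory: the first time at which every vertex has been visited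
(`⊤` if there is no such time). -/
noncomputable def coverTime {V : Type} (ω : ℕ → V) : ℕ∞ :=
  ⨅ (t : ℕ) (_ : ∀ y : V, ∃ s ≤ t, ω s = y), (t : ℕ∞)

variable {V : Type} [Fintype V] [MeasurableSpace V]

/-- The law of a uniformly random neighbour of `x`. -/
noncomputable def nbrLaw (G : SimpleGraph V) [DecidableRel G.Adj] (x : V) : Measure V :=
  ∑ y ∈ G.neighborFinset x, ((G.degree x : ℝ≥0∞)⁻¹) • Measure.dirac y

/-- The law of `x_{t+1}` given the history `h = (x_0, ..., x_t)`: with probability `1 - ε` a
uniformly random neighbour of `x_t`, with probability `ε` the vertex picked by the controller. -/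
noncomputable def stepLaw (G : SimpleGraph V) [DecidableRel G.Adj] (ε : I) (S : Strategy G)
    (t : ℕ) (h : (i : Finset.Iic t) → V) : Measure V :=
  toNNReal (σ ε) • nbrLaw G (h ⟨t, Finset.mem_Iic.2 le_rfl⟩) + toNNReal ε • (S.choice t h).toMeasure

lemma nbrLaw_univ (G : SimpleGraph V) [DecidableRel G.Adj] (x : V) (hx : 0 < G.degree x) :
    nbrLaw G x Set.univ = 1 := by
  have h0 : (G.degree x : ℝ≥0∞) ≠ 0 := by
    simpa using hx.ne'
  simp only [nbrLaw, Measure.coe_finsetSum, Finset.sum_apply, Measure.smul_apply, measure_univ,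
    smul_eq_mul, mul_one, Finset.sum_const, SimpleGraph.card_neighborFinset_eq_degree,
    nsmul_eq_mul]
  exact ENNReal.mul_inv_cancel h0 (by simp)

instance (G : SimpleGraph V) [DecidableRel G.Adj] (ε : I) (S : Strategy G)
    (t : ℕ) (h : (i : Finset.Iic t) → V) : IsProbabilityMeasure (stepLaw G ε S t h) := by
  constructor
  have h2 : (toNNReal (σ ε) : ℝ≥0∞) + (toNNReal ε : ℝ≥0∞) = 1 := by
    rw [← ENNReal.coe_add, add_comm]; simp
  simp only [stepLaw, Measure.coe_add, Measure.coe_nnreal_smul_apply, Pi.add_apply,
    nbrLaw_univ _ _ (S.degree_pos t h), measure_univ, mul_one]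
  exact h2

variable [MeasurableSingletonClass V]

/-- The transition kernels of the walk under the strategy `S`. -/
noncomputable def stepKernel (G : SimpleGraph V) [DecidableRel G.Adj] (ε : I) (S : Strategy G)
    (t : ℕ) : Kernel ((i : Finset.Iic t) → V) V :=
  Kernel.ofFunOfCountable (fun h => stepLaw G ε S t h)

instance (G : SimpleGraph V) [DecidableRel G.Adj] (ε : I) (S : Strategy G)
    (t : ℕ) : IsMarkovKernel (stepKernel G ε S t) := by
  constructor
  intro h
  change IsProbabilityMeasure (stepLaw G ε S t h)
  infer_instance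

/-- The law of the `ε`-biased walk started at `v` and run under the strategy `S`, a probability
measure on the space `ℕ → V` of trajectories (Ionescu-Tulcea). -/
noncomputable def walkLaw (G : SimpleGraph V) [DecidableRel G.Adj] (ε : I) (S : Strategy G)
    (v : V) : Measure (ℕ → V) :=
  Kernel.trajMeasure (X := fun _ => V) (Measure.dirac v) (stepKernel G ε S)

/-- The expected cover time of the `ε`-biased walk from `v` under the strategy `S`. -/
noncomputable def expectedCoverTime (G : SimpleGraph V) [DecidableRel G.Adj] (ε : I)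
    (S : Strategy G) (v : V) : ℝ≥0∞ :=
  ∫⁻ ω, (coverTime ω : ℝ≥0∞) ∂(walkLaw G ε S v)

/-- The `ε`-biased cover time of `G`: worst start vertex, best strategy. -/
noncomputable def tcov (G : SimpleGraph V) [DecidableRel G.Adj] (ε : I) : ℝ≥0∞ :=
  ⨆ v : V, ⨅ S : Strategy G, expectedCoverTime G ε S v

end Pool.Agent.MP_763ca5_pr
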