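import Pool.Agent.MP_763ca5_pr.Bound

set_option autoImplicit false
set_option linter.unusedSectionVars false

open MeasureTheory ProbabilityTheory Filter unitInterval Finset Preorder
open scoped ENNReal NNReal Topology

namespace Pool.Agent.MP_763ca5_pr

section

variable {V : Type} [Fintype V] [DecidableEq V] [MeasurableSpace V] [MeasurableSingletonClass V]
variable (G : SimpleGraph V) [DecidableRel G.Adj]

lemma coverTime_eq_top (ω : ℕ → V) (h : ∀ T, vis ω T ≠ Finset.univ) : coverTime ω = ⊤ := by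
  unfold coverTime
  simp only [iInf_eq_top]
  intro T hT
  exfalso
  apply h T
  ext y
  simp only [Finset.mem_univ, iff_true]
  obtain ⟨s, hs, he⟩ := hT y
  exact Finset.mem_image.2 ⟨s, by simp; omega, he⟩

instance (ε : I) (S : Strategy G) (v : V) : IsProbabilityMeasure (walkLaw G ε S v) := by
  unfold walkLaw
  infer_instance

lemma pathwise {d : ℕ} (hreg : G.IsRegularOfDegree d) (hdeg : ∀ x, 0 < G.degree x) (j : ℕ)
    (ω : ℕ → V) (T : ℕ) (hT : vis ω T = Finset.univ) :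
    (Fintype.card V : ℝ≥0∞) / (2 * j + 1 : ℕ) - 1 ≤
      ∑' t : ℕ, (if newAt ω t then g G (vis ω t) j (ω t) else 0) := by
  have h := card_le_of_vis_eq_univ hreg hdeg j ω T hT
  have h2 : (Fintype.card V : ℝ≥0∞) / (2 * j + 1 : ℕ) ≤ D G j ω (T + 1) + 1 :=
    ENNReal.div_le_of_le_mul' h
  rw [tsub_le_iff_right]
  refine h2.trans ?_
  gcongr
  unfold D
  exact ENNReal.sum_le_tsum _

/-- Lower bound for every strategy on every regular graph. -/
theorem lower_bound {d : ℕ} (hreg : G.IsRegularOfDegree d) (hdeg : ∀ x, 0 < G.degree x)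
    (ε : I) (S : Strategy G) (v : V) (K : ℕ) :
    ∑ j ∈ range K, (toNNReal (σ ε) : ℝ≥0∞) ^ j *
      ((Fintype.card V : ℝ≥0∞) / (2 * j + 1 : ℕ) - 1) ≤ expectedCoverTime G ε S v := by
  set C : Set (ℕ → V) := {ω | ∃ T, vis ω T = Finset.univ} with hC
  have hCm : MeasurableSet C := by
    have : C = ⋃ T, {ω : ℕ → V | vis ω T = Finset.univ} := by ext ω; simp [hC]
    rw [this]
    exact MeasurableSet.iUnion fun T => measurableSet_vis_univ T
  by_cases h0 : walkLaw G ε S v Cᶜ = 0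
  · refine le_trans ?_ (expected_ge G ε S v K)
    gcongr with j _
    have hae : ∀ᵐ ω ∂(walkLaw G ε S v), (Fintype.card V : ℝ≥0∞) / (2 * j + 1 : ℕ) - 1 ≤
        ∑' t : ℕ, (if newAt ω t then g G (vis ω t) j (ω t) else 0) := by
      rw [ae_iff]
      refine measure_mono_null ?_ h0
      intro ω hω
      simp only [Set.mem_ofPred_eq] at hω
      intro hcon
      obtain ⟨T, hT⟩ := hcon
      exact hω (pathwise G hreg hdeg j ω T hT)
    calc (Fintype.card V : ℝ≥0∞) / (2 * j + 1 : ℕ) - 1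
        = ∫⁻ _, ((Fintype.card V : ℝ≥0∞) / (2 * j + 1 : ℕ) - 1) ∂(walkLaw G ε S v) := by simp
      _ ≤ _ := lintegral_mono_ae hae
  · have : expectedCoverTime G ε S v = ⊤ := by
      rw [eq_top_iff]
      calc (⊤ : ℝ≥0∞) = ⊤ * walkLaw G ε S v Cᶜ := (ENNReal.top_mul h0).symm
        _ = ∫⁻ _ in Cᶜ, ⊤ ∂(walkLaw G ε S v) := by rw [setLIntegral_const]
        _ ≤ ∫⁻ ω in Cᶜ, (coverTime ω : ℝ≥0∞) ∂(walkLaw G ε S v) := by
            refine setLIntegral_mono' hCm.compl ?_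
            intro ω hω
            rw [coverTime_eq_top ω (fun T hT => hω ⟨T, hT⟩)]
            simp
        _ ≤ _ := setLIntegral_le_lintegral _ _
    rw [this]
    exact le_top

theorem tcov_lower_bound [Nonempty V] {d : ℕ} (hreg : G.IsRegularOfDegree d)
    (hd : 0 < d) (ε : I) (K : ℕ) :
    ∑ j ∈ range K, (toNNReal (σ ε) : ℝ≥0∞) ^ j *
      ((Fintype.card V : ℝ≥0∞) / (2 * j + 1 : ℕ) - 1) ≤ tcov G ε := by
  unfold tcov
  obtain ⟨v⟩ := ‹Nonempty V›
  refine le_trans ?_ (le_iSup _ v)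
  refine le_iInf fun S => ?_
  exact lower_bound G hreg (fun x => by rw [hreg x]; exact hd) ε S v K

end

lemma term_bound (ε : I) (N j : ℕ) (hN : 0 < N) :
    ENNReal.ofReal ((1 - (ε : ℝ)) ^ j * (1 / (2 * j + 1 : ℝ) - 1 / (N : ℝ))) ≤
      (toNNReal (σ ε) : ℝ≥0∞) ^ j * ((N : ℝ≥0∞) / (2 * j + 1 : ℕ) - 1) / N := by
  have hN0 : (N : ℝ≥0∞) ≠ 0 := by simpa using hN.ne'
  have hNt : (N : ℝ≥0∞) ≠ ⊤ := by simp
  have hε0 : 0 ≤ 1 - (ε : ℝ) := by linarith [ε.2.2]
  rw [ENNReal.ofReal_mul (pow_nonneg hε0 j), ENNReal.ofReal_pow hε0, mul_div_assoc]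
  have h1 : ENNReal.ofReal (1 - (ε : ℝ)) = (toNNReal (σ ε) : ℝ≥0∞) := by
    rw [ENNReal.ofReal]
    congr 1
    ext
    simp [hε0]
  rw [h1]
  gcongr
  rw [ENNReal.ofReal_sub _ (by positivity)]
  have h2 : ((N : ℝ≥0∞) / (2 * j + 1 : ℕ) - 1) / N =
      (1 / (2 * j + 1 : ℕ) : ℝ≥0∞) - 1 / N := by
    rw [ENNReal.sub_div (fun _ _ => hN0)]
    congr 1
    rw [div_eq_mul_inv, div_eq_mul_inv, mul_comm (N : ℝ≥0∞), mul_assoc,
      ENNReal.mul_inv_cancel hN0 hNt, mul_one, one_div]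
  rw [h2]
  refine le_of_eq ?_
  congr 1
  · rw [ENNReal.ofReal_div_of_pos (by positivity)]
    simp only [ENNReal.ofReal_one]
    congr 1
    have : (2 * (j : ℝ) + 1) = ((2 * j + 1 : ℕ) : ℝ) := by push_cast; ring
    rw [this, ENNReal.ofReal_natCast]
  · rw [ENNReal.ofReal_div_of_pos (by positivity)]
    simp

lemma ofReal_sum_le' {ι : Type*} (s : Finset ι) (f : ι → ℝ) :
    ENNReal.ofReal (∑ i ∈ s, f i) ≤ ∑ i ∈ s, ENNReal.ofReal (f i) := by
  induction s using Finset.cons_induction with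
  | empty => simp
  | cons a s ha ih =>
    rw [Finset.sum_cons, Finset.sum_cons]
    exact ENNReal.ofReal_add_le.trans (add_le_add le_rfl ih)

theorem ratio_tendsto (n d : ℕ → ℕ) (G : ∀ k, SimpleGraph (Fin (n k)))
    [∀ k, DecidableRel (G k).Adj] (ε : ℕ → I)
    (hconn : ∀ k, (G k).Connected) (hreg : ∀ k, (G k).IsRegularOfDegree (d k))
    (hd : Tendsto d atTop atTop) (hε : Tendsto (fun k => (ε k : ℝ)) atTop (𝓝 0)) :
    Tendsto (fun k => tcov (G k) (ε k) / (n k : ℝ≥0∞)) atTop (𝓝 ⊤) := by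
  have hne : ∀ k, Nonempty (Fin (n k)) := fun k => (hconn k).nonempty
  have hnpos : ∀ k, 0 < n k := fun k => by
    obtain ⟨x⟩ := hne k
    exact x.pos
  have hdn : ∀ k, d k ≤ n k := by
    intro k
    obtain ⟨x⟩ := hne k
    have h1 := (G k).degree_lt_card_verts x
    rw [hreg k x, Fintype.card_fin] at h1
    exact h1.le
  have hn : Tendsto n atTop atTop := tendsto_atTop_mono hdn hd
  rw [ENNReal.tendsto_nhds_top_iff_nat]
  intro M
  -- choose K
  obtain ⟨K, hK⟩ : ∃ K : ℕ, (M : ℝ) < ∑ j ∈ range K, 1 / (2 * j + 1 : ℝ) := by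
    have hdiv : Tendsto (fun K : ℕ => ∑ j ∈ range K, (1 / (2 * j + 1) : ℝ)) atTop atTop := by
      have h1 := Real.tendsto_sum_range_one_div_nat_succ_atTop.atTop_mul_const
        (show (0 : ℝ) < 1 / 2 by norm_num)
      refine tendsto_atTop_mono (fun K => ?_) h1
      rw [Finset.sum_mul]
      refine Finset.sum_le_sum fun j _ => ?_
      rw [div_mul_div_comm, one_mul]
      apply one_div_le_one_div_of_le
      · positivity
      · linarith
    obtain ⟨K, hK⟩ := (hdiv.eventually_gt_atTop (M : ℝ)).exists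
    exact ⟨K, hK⟩
  have hlim : Tendsto (fun k => ∑ j ∈ range K,
      (1 - (ε k : ℝ)) ^ j * (1 / (2 * j + 1 : ℝ) - 1 / (n k : ℝ))) atTop
      (𝓝 (∑ j ∈ range K, (1 - 0) ^ j * (1 / (2 * j + 1 : ℝ) - 0))) := by
    refine tendsto_finsetSum _ fun j _ => ?_
    refine ((tendsto_const_nhds.sub hε).pow j).mul (tendsto_const_nhds.sub ?_)
    have := tendsto_one_div_atTop_nhds_zero_nat (𝕜 := ℝ)
    exact this.comp hn
  have hK' : (M : ℝ) < ∑ j ∈ range K, (1 - 0) ^ j * (1 / (2 * j + 1 : ℝ) - 0) := by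
    simpa using hK
  filter_upwards [hlim.eventually (lt_mem_nhds hK'), hd.eventually_gt_atTop 0] with k hk hdk
  have hb := tcov_lower_bound (G k) (hreg k) hdk (ε k) K
  rw [Fintype.card_fin] at hb
  calc (M : ℝ≥0∞) = ENNReal.ofReal M := by simp
    _ < ENNReal.ofReal (∑ j ∈ range K,
        (1 - (ε k : ℝ)) ^ j * (1 / (2 * j + 1 : ℝ) - 1 / (n k : ℝ))) := by
        rw [ENNReal.ofReal_lt_ofReal_iff_of_nonneg (by positivity)]
        exact hk
    _ ≤ ∑ j ∈ range K, ENNReal.ofReal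
        ((1 - (ε k : ℝ)) ^ j * (1 / (2 * j + 1 : ℝ) - 1 / (n k : ℝ))) := by
        exact ofReal_sum_le' _ _
    _ ≤ ∑ j ∈ range K, (toNNReal (σ (ε k)) : ℝ≥0∞) ^ j *
        ((n k : ℝ≥0∞) / (2 * j + 1 : ℕ) - 1) / n k :=
        Finset.sum_le_sum fun j _ => term_bound (ε k) (n k) j (hnpos k)
    _ = (∑ j ∈ range K, (toNNReal (σ (ε k)) : ℝ≥0∞) ^ j *
        ((n k : ℝ≥0∞) / (2 * j + 1 : ℕ) - 1)) / n k := by
        simp only [div_eq_mul_inv, Finset.sum_mul]
    _ ≤ tcov (G k) (ε k) / n k := by gcongr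

end Pool.Agent.MP_763ca5_pr
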