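import Pool.Agent.MP_763ca5_pr.Defs

set_option autoImplicit false

open Finset
open scoped ENNReal

namespace Pool.Agent.MP_763ca5_pr

set_option linter.unusedSectionVars false

variable {V : Type} [Fintype V] [DecidableEq V] (G : SimpleGraph V) [DecidableRel G.Adj]

/-- Transition probability of simple random walk. -/
noncomputable def pr (x z : V) : ℝ≥0∞ := if G.Adj x z then (G.degree x : ℝ≥0∞)⁻¹ else 0

/-- Transition operator of simple random walk restricted to steps into `A`. -/
noncomputable def Q (A : Finset V) (f : V → ℝ≥0∞) (x : V) : ℝ≥0∞ := ∑ z ∈ A, pr G x z * f z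

/-- Probability that the next `m` steps of simple random walk stay in `A`. -/
noncomputable def g (A : Finset V) (m : ℕ) : V → ℝ≥0∞ := (Q G A)^[m] (fun _ => 1)

lemma g_zero (A : Finset V) (x : V) : g G A 0 x = 1 := rfl

lemma g_succ (A : Finset V) (m : ℕ) (x : V) :
    g G A (m + 1) x = ∑ z ∈ A, pr G x z * g G A m z := by
  unfold g
  rw [Function.iterate_succ_apply']
  rfl

lemma sum_pr_le (A : Finset V) (x : V) : ∑ z ∈ A, pr G x z ≤ 1 := by
  calc ∑ z ∈ A, pr G x z ≤ ∑ z, pr G x z := Finset.sum_le_univ_sum_of_nonneg (by simp)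
    _ = (G.degree x : ℝ≥0∞) * (G.degree x : ℝ≥0∞)⁻¹ := by
        simp only [pr, ← Finset.sum_filter, Finset.sum_const, nsmul_eq_mul]
        congr 2
        rw [← SimpleGraph.card_neighborFinset_eq_degree]
        congr 1
        ext z; simp
    _ ≤ 1 := ENNReal.mul_inv_le_one _

lemma sum_pr_eq (x : V) (hx : 0 < G.degree x) : ∑ z, pr G x z = 1 := by
  calc ∑ z, pr G x z = (G.degree x : ℝ≥0∞) * (G.degree x : ℝ≥0∞)⁻¹ := by
        simp only [pr, ← Finset.sum_filter, Finset.sum_const, nsmul_eq_mul]
        congr 2
        rw [← SimpleGraph.card_neighborFinset_eq_degree]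
        congr 1
        ext z; simp
    _ = 1 := ENNReal.mul_inv_cancel (by simpa using hx.ne') (by simp)

lemma g_le_one (A : Finset V) (m : ℕ) (x : V) : g G A m x ≤ 1 := by
  induction m generalizing x with
  | zero => simp [g_zero]
  | succ m ih =>
    rw [g_succ]
    calc ∑ z ∈ A, pr G x z * g G A m z ≤ ∑ z ∈ A, pr G x z * 1 := by
          gcongr with z _; exact ih z
      _ = ∑ z ∈ A, pr G x z := by simp
      _ ≤ 1 := sum_pr_le G A x

lemma g_succ_le (A : Finset V) (m : ℕ) (x : V) : g G A (m + 1) x ≤ g G A m x := by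
  induction m generalizing x with
  | zero => rw [g_zero]; exact g_le_one G A 1 x
  | succ m ih =>
    rw [g_succ, g_succ G A m]
    gcongr with z _; exact ih z

lemma g_antitone (A : Finset V) {m k : ℕ} (h : m ≤ k) (x : V) : g G A k x ≤ g G A m x := by
  induction k, h using Nat.le_induction with
  | base => exact le_rfl
  | succ k _ ih => exact (g_succ_le G A k x).trans ih

lemma g_mono {A B : Finset V} (h : A ⊆ B) (m : ℕ) (x : V) : g G A m x ≤ g G B m x := by
  induction m generalizing x with
  | zero => simp [g_zero]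
  | succ m ih =>
    rw [g_succ, g_succ]
    calc ∑ z ∈ A, pr G x z * g G A m z ≤ ∑ z ∈ A, pr G x z * g G B m z := by
          gcongr with z _; exact ih z
      _ ≤ ∑ z ∈ B, pr G x z * g G B m z := Finset.sum_le_sum_of_subset h

lemma g_univ (hdeg : ∀ x, 0 < G.degree x) (m : ℕ) (x : V) : g G Finset.univ m x = 1 := by
  induction m generalizing x with
  | zero => simp [g_zero]
  | succ m ih =>
    rw [g_succ]
    simp only [ih, mul_one]
    exact sum_pr_eq G x (hdeg x)

/-- First visit decomposition. -/
lemma g_insert (A : Finset V) (y : V) (hy : y ∉ A) (m : ℕ) (x : V) :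
    g G (insert y A) m x = g G A m x +
      ∑ i ∈ range m, g G (insert y A) (m - 1 - i) y * ((Q G A)^[i] (fun x => pr G x y)) x := by
  induction m generalizing x with
  | zero => simp [g_zero]
  | succ m ih =>
    rw [g_succ, Finset.sum_insert hy, Finset.sum_range_succ']
    have h1 : ∀ z ∈ A, pr G x z * g G (insert y A) m z = pr G x z * g G A m z +
        ∑ i ∈ range m, g G (insert y A) (m - 1 - i) y *
          (pr G x z * ((Q G A)^[i] (fun x => pr G x y)) z) := by
      intro z _
      rw [ih z, mul_add, Finset.mul_sum]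
      congr 1
      refine Finset.sum_congr rfl fun i _ => ?_
      ring
    rw [Finset.sum_congr rfl h1, Finset.sum_add_distrib, Finset.sum_comm, g_succ]
    have h2 : ∀ i ∈ range m, ∑ z ∈ A, g G (insert y A) (m - 1 - i) y *
          (pr G x z * ((Q G A)^[i] (fun x => pr G x y)) z) =
        g G (insert y A) (m + 1 - 1 - (i + 1)) y *
          ((Q G A)^[i + 1] (fun x => pr G x y)) x := by
      intro i _
      rw [← Finset.mul_sum, Function.iterate_succ_apply']
      have : m + 1 - 1 - (i + 1) = m - 1 - i := by omega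
      rw [this]
      rfl
    rw [Finset.sum_congr rfl h2]
    simp only [Function.iterate_zero, id, Nat.add_sub_cancel, Nat.sub_zero]
    ring

variable {G}

lemma pr_symm {d : ℕ} (hreg : G.IsRegularOfDegree d) (x z : V) : pr G x z = pr G z x := by
  unfold pr
  rw [hreg x, hreg z]
  by_cases h : G.Adj x z
  · simp [h, h.symm]
  · have h' : ¬ G.Adj z x := fun h' => h h'.symm
    simp [h, h']

lemma Q_adjoint {d : ℕ} (hreg : G.IsRegularOfDegree d) (A : Finset V) (f h : V → ℝ≥0∞) :
    ∑ x ∈ A, Q G A f x * h x = ∑ x ∈ A, f x * Q G A h x := by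
  unfold Q
  simp only [Finset.sum_mul, Finset.mul_sum]
  rw [Finset.sum_comm]
  refine Finset.sum_congr rfl fun x _ => Finset.sum_congr rfl fun z _ => ?_
  rw [pr_symm hreg z x]
  ring

lemma Q_iter_adjoint {d : ℕ} (hreg : G.IsRegularOfDegree d) (A : Finset V) (i : ℕ)
    (f h : V → ℝ≥0∞) :
    ∑ x ∈ A, ((Q G A)^[i] f) x * h x = ∑ x ∈ A, f x * ((Q G A)^[i] h) x := by
  induction i generalizing h with
  | zero => rfl
  | succ i ih =>
    rw [Function.iterate_succ_apply', Q_adjoint hreg, ih, Function.iterate_succ_apply]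

lemma sum_hit {d : ℕ} (hreg : G.IsRegularOfDegree d) (A : Finset V) (y : V) (i : ℕ) :
    ∑ x ∈ A, ((Q G A)^[i] (fun x => pr G x y)) x = g G A (i + 1) y := by
  have := Q_iter_adjoint hreg A i (fun x => pr G x y) (fun _ => 1)
  simp only [mul_one] at this
  rw [this, g_succ]
  refine Finset.sum_congr rfl fun x _ => ?_
  rw [pr_symm hreg x y]
  rfl

variable (G) in
/-- Total weight of simple random walk paths of length `m` inside `A`. -/
noncomputable def W (A : Finset V) (m : ℕ) : ℝ≥0∞ := ∑ x ∈ A, g G A m x

lemma W_insert {d : ℕ} (hreg : G.IsRegularOfDegree d) (A : Finset V) (y : V) (hy : y ∉ A)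
    (m : ℕ) :
    W G (insert y A) m ≤ W G A m +
      ∑ i ∈ range (m + 1), g G (insert y A) i y * g G (insert y A) (m - i) y := by
  unfold W
  rw [Finset.sum_insert hy]
  have h1 : ∑ x ∈ A, g G (insert y A) m x = ∑ x ∈ A, g G A m x +
      ∑ i ∈ range m, g G (insert y A) (m - 1 - i) y * g G A (i + 1) y := by
    rw [Finset.sum_congr rfl (fun x _ => g_insert G A y hy m x), Finset.sum_add_distrib,
      Finset.sum_comm]
    congr 1
    refine Finset.sum_congr rfl fun i _ => ?_
    rw [← Finset.mul_sum, sum_hit hreg]
  rw [h1, Finset.sum_range_succ']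
  have h2 : ∑ i ∈ range m, g G (insert y A) (m - 1 - i) y * g G A (i + 1) y ≤
      ∑ i ∈ range m, g G (insert y A) (i + 1) y * g G (insert y A) (m - (i + 1)) y := by
    refine Finset.sum_le_sum fun i _ => ?_
    have : m - 1 - i = m - (i + 1) := by omega
    rw [this, mul_comm]
    gcongr
    exact g_mono G (Finset.subset_insert y A) _ _
  simp only [g_zero, one_mul, Nat.sub_zero]
  calc g G (insert y A) m y + (∑ x ∈ A, g G A m x +
        ∑ i ∈ range m, g G (insert y A) (m - 1 - i) y * g G A (i + 1) y)
      ≤ g G (insert y A) m y + (∑ x ∈ A, g G A m x +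
        ∑ i ∈ range m, g G (insert y A) (i + 1) y * g G (insert y A) (m - (i + 1)) y) := by
        gcongr
    _ = _ := by ring

/-- The key inequality: the record at `y` costs at most `2 j + 1` times the probability to stay. -/
lemma W_insert_two {d : ℕ} (hreg : G.IsRegularOfDegree d) (A : Finset V) (y : V) (hy : y ∉ A)
    (j : ℕ) :
    W G (insert y A) (2 * j) ≤ W G A (2 * j) + (2 * j + 1 : ℕ) * g G (insert y A) j y := by
  refine (W_insert hreg A y hy (2 * j)).trans ?_
  gcongr
  calc ∑ i ∈ range (2 * j + 1), g G (insert y A) i y * g G (insert y A) (2 * j - i) y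
      ≤ ∑ i ∈ range (2 * j + 1), g G (insert y A) j y := by
        refine Finset.sum_le_sum fun i _ => ?_
        rcases le_total i j with h | h
        · calc g G (insert y A) i y * g G (insert y A) (2 * j - i) y
              ≤ 1 * g G (insert y A) j y := by
                gcongr
                · exact g_le_one _ _ _ _
                · exact g_antitone G _ (by omega) _
            _ = _ := one_mul _
        · calc g G (insert y A) i y * g G (insert y A) (2 * j - i) y
              ≤ g G (insert y A) j y * 1 := by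
                gcongr
                · exact g_antitone G _ h _
                · exact g_le_one _ _ _ _
            _ = _ := mul_one _
    _ = _ := by simp

lemma W_univ (hdeg : ∀ x, 0 < G.degree x) (m : ℕ) : W G Finset.univ m = Fintype.card V := by
  unfold W
  simp [g_univ G hdeg]

/-- Set of vertices visited up to time `t`. -/
def vis (ω : ℕ → V) (t : ℕ) : Finset V := (range (t + 1)).image ω

/-- At time `t` a new vertex is visited, and some vertex is still missing. -/
def newAt (ω : ℕ → V) (t : ℕ) : Prop := ω t ∉ (range t).image ω ∧ vis ω t ≠ Finset.univ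

instance (ω : ℕ → V) (t : ℕ) : Decidable (newAt ω t) := by unfold newAt; infer_instance

variable (G) in
/-- Sum of the stay probabilities at discoveries up to time `T`. -/
noncomputable def D (j : ℕ) (ω : ℕ → V) (T : ℕ) : ℝ≥0∞ :=
  ∑ t ∈ range T, if newAt ω t then g G (vis ω t) j (ω t) else 0

lemma vis_succ (ω : ℕ → V) (t : ℕ) : vis ω (t + 1) = insert (ω (t + 1)) (vis ω t) := by
  unfold vis
  rw [Finset.range_add_one (n := t + 1), Finset.image_insert]

lemma W_vis_le {d : ℕ} (hreg : G.IsRegularOfDegree d) (j : ℕ)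
    (ω : ℕ → V) (T : ℕ) :
    W G (vis ω T) (2 * j) ≤
      (2 * j + 1 : ℕ) * (D G j ω (T + 1) + if vis ω T = Finset.univ then 1 else 0) := by
  induction T with
  | zero =>
    have h0 : vis ω 0 = insert (ω 0) ∅ := by simp [vis]
    have h1 : W G (vis ω 0) (2 * j) ≤ (2 * j + 1 : ℕ) * g G (vis ω 0) j (ω 0) := by
      rw [h0]
      refine (W_insert_two hreg ∅ (ω 0) (by simp) j).trans ?_
      simp [W]
    refine h1.trans ?_
    gcongr
    by_cases hu : vis ω 0 = Finset.univ
    · rw [if_pos hu]
      exact (g_le_one G _ _ _).trans (by simp)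
    · have : newAt ω 0 := ⟨by simp, hu⟩
      simp [D, this]
  | succ T ih =>
    by_cases hmem : ω (T + 1) ∈ vis ω T
    · have h1 : vis ω (T + 1) = vis ω T := by rw [vis_succ, Finset.insert_eq_of_mem hmem]
      rw [h1]
      refine ih.trans ?_
      gcongr
      unfold D
      exact Finset.sum_le_sum_of_subset (by
        intro a ha; simp only [Finset.mem_range] at ha ⊢; omega)
    · have h1 : vis ω T ≠ Finset.univ := by
        intro h; rw [h] at hmem; simp at hmem
      rw [if_neg h1, add_zero] at ih
      have h2 := W_insert_two hreg (vis ω T) (ω (T + 1)) hmem j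
      rw [← vis_succ] at h2
      refine h2.trans ?_
      calc W G (vis ω T) (2 * j) + (2 * j + 1 : ℕ) * g G (vis ω (T + 1)) j (ω (T + 1))
          ≤ (2 * j + 1 : ℕ) * D G j ω (T + 1) +
            (2 * j + 1 : ℕ) * g G (vis ω (T + 1)) j (ω (T + 1)) := by gcongr
        _ = (2 * j + 1 : ℕ) * (D G j ω (T + 1) + g G (vis ω (T + 1)) j (ω (T + 1))) := by ring
        _ ≤ _ := by
          have hsub : D G j ω (T + 1) ≤ D G j ω (T + 1 + 1) := by
            unfold D
            exact Finset.sum_le_sum_of_subset (by
              intro a ha; simp only [Finset.mem_range] at ha ⊢; omega)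
          refine mul_le_mul_right ?_ _
          by_cases hu : vis ω (T + 1) = Finset.univ
          · rw [if_pos hu]
            exact add_le_add hsub (g_le_one G _ _ _)
          · rw [if_neg hu, add_zero]
            have hn : newAt ω (T + 1) := ⟨hmem, hu⟩
            unfold D
            rw [Finset.sum_range_succ _ (T + 1), if_pos hn]

/-- Every complete discovery order has large total stay probability. -/
lemma card_le_of_vis_eq_univ {d : ℕ} (hreg : G.IsRegularOfDegree d)
    (hdeg : ∀ x, 0 < G.degree x) (j : ℕ) (ω : ℕ → V) (T : ℕ) (hT : vis ω T = Finset.univ) :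
    (Fintype.card V : ℝ≥0∞) ≤ (2 * j + 1 : ℕ) * (D G j ω (T + 1) + 1) := by
  have := W_vis_le hreg j ω T
  rwa [if_pos hT, hT, W_univ hdeg] at this

end Pool.Agent.MP_763ca5_pr
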