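import Pool.Agent.MP_763ca5_pr.Order

set_option autoImplicit false
set_option linter.unusedSectionVars false

open MeasureTheory ProbabilityTheory Filter unitInterval Finset Preorder
open scoped ENNReal NNReal Topology

namespace Pool.Agent.MP_763ca5_pr

variable {V : Type} [Fintype V] [DecidableEq V] [MeasurableSpace V] [MeasurableSingletonClass V]
variable (G : SimpleGraph V) [DecidableRel G.Adj]

lemma lintegral_stepLaw_ge (ε : I) (S : Strategy G) (t : ℕ) (h : (i : Finset.Iic t) → V)
    (φ : V → ℝ≥0∞) :
    (toNNReal (σ ε) : ℝ≥0∞) * ∑ z, pr G (h ⟨t, Finset.mem_Iic.2 le_rfl⟩) z * φ z ≤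
      ∫⁻ y, φ y ∂(stepLaw G ε S t h) := by
  have hm : Measurable φ := measurable_of_finite φ
  rw [stepLaw, lintegral_add_measure]
  refine le_trans ?_ le_self_add
  rw [lintegral_smul_measure, nbrLaw, lintegral_finsetSum_measure]
  have : ∀ z ∈ G.neighborFinset (h ⟨t, Finset.mem_Iic.2 le_rfl⟩),
      ∫⁻ a, φ a ∂((G.degree (h ⟨t, Finset.mem_Iic.2 le_rfl⟩) : ℝ≥0∞)⁻¹ • Measure.dirac z) =
        pr G (h ⟨t, Finset.mem_Iic.2 le_rfl⟩) z * φ z := by
    intro z hz
    rw [lintegral_smul_measure, lintegral_dirac' _ hm, pr, if_pos (by simpa using hz)]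
    rfl
  rw [Finset.sum_congr rfl this]
  have h2 : ∑ z, pr G (h ⟨t, Finset.mem_Iic.2 le_rfl⟩) z * φ z =
      ∑ z ∈ G.neighborFinset (h ⟨t, Finset.mem_Iic.2 le_rfl⟩),
        pr G (h ⟨t, Finset.mem_Iic.2 le_rfl⟩) z * φ z := by
    symm
    refine Finset.sum_subset (Finset.subset_univ _) ?_
    intro z _ hz
    rw [pr, if_neg (by simpa using hz), zero_mul]
  rw [h2]
  rfl

lemma one_step (ε : I) (S : Strategy G) (v : V) (t : ℕ)
    (f : ((i : Finset.Iic t) → V) → V → ℝ≥0∞) :
    ∫⁻ ω, f (frestrictLe t ω) (ω (t + 1)) ∂(walkLaw G ε S v) =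
      ∫⁻ ω, (∫⁻ y, f (frestrictLe t ω) y ∂(stepLaw G ε S t (frestrictLe t ω)))
        ∂(walkLaw G ε S v) := by
  have key := Kernel.map_frestrictLe_trajMeasure_compProd_eq_map_trajMeasure (X := fun _ => V)
    (μ₀ := Measure.dirac v) (κ := stepKernel G ε S) (a := t)
  have hmf : Measurable (fun p : ((i : Finset.Iic t) → V) × V => f p.1 p.2) :=
    measurable_of_finite _
  have e1 : ∫⁻ ω, f (frestrictLe t ω) (ω (t + 1)) ∂(walkLaw G ε S v) =
      ∫⁻ p, f p.1 p.2 ∂((walkLaw G ε S v).map (fun x => (frestrictLe t x, x (t + 1)))) := by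
    rw [lintegral_map hmf]
    · fun_prop
  rw [e1, walkLaw, ← key, Measure.lintegral_compProd hmf, lintegral_map]
  · rfl
  · exact measurable_of_finite _
  · fun_prop

lemma multi_step (ε : I) (S : Strategy G) (v : V) (j : ℕ) :
    ∀ (t : ℕ) (F : ((i : Finset.Iic t) → V) → ℝ≥0∞) (B : ((i : Finset.Iic t) → V) → Finset V),
    (toNNReal (σ ε) : ℝ≥0∞) ^ j *
        ∫⁻ ω, F (frestrictLe t ω) * g G (B (frestrictLe t ω)) j (ω t) ∂(walkLaw G ε S v) ≤
      ∫⁻ ω, F (frestrictLe t ω) *
        (if ∀ i < j, ω (t + 1 + i) ∈ B (frestrictLe t ω) then 1 else 0)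
          ∂(walkLaw G ε S v) := by
  induction j with
  | zero =>
    intro t F B
    simp [g_zero]
  | succ j ih =>
    intro t F B
    have hle : t ≤ t + 1 := Nat.le_succ t
    let F' : ((i : Finset.Iic (t + 1)) → V) → ℝ≥0∞ := fun h' =>
      F (frestrictLe₂ (π := fun _ => V) hle h') *
        (if h' ⟨t + 1, Finset.mem_Iic.2 le_rfl⟩ ∈ B (frestrictLe₂ (π := fun _ => V) hle h')
          then 1 else 0)
    let B' : ((i : Finset.Iic (t + 1)) → V) → Finset V := fun h' =>
      B (frestrictLe₂ (π := fun _ => V) hle h')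
    have h1 := ih (t + 1) F' B'
    have h2 : ∫⁻ ω, F' (frestrictLe (t + 1) ω) *
          (if ∀ i < j, ω (t + 1 + 1 + i) ∈ B' (frestrictLe (t + 1) ω) then 1 else 0)
          ∂(walkLaw G ε S v) =
        ∫⁻ ω, F (frestrictLe t ω) *
          (if ∀ i < j + 1, ω (t + 1 + i) ∈ B (frestrictLe t ω) then 1 else 0)
          ∂(walkLaw G ε S v) := by
      refine lintegral_congr fun ω => ?_
      change F (frestrictLe t ω) * (if ω (t + 1) ∈ B (frestrictLe t ω) then 1 else 0) *
        (if ∀ i < j, ω (t + 1 + 1 + i) ∈ B (frestrictLe t ω) then 1 else 0) = _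
      rw [mul_assoc]
      congr 1
      by_cases hA : ω (t + 1) ∈ B (frestrictLe t ω)
      · rw [if_pos hA, one_mul]
        congr 1
        apply propext
        constructor
        · intro H i hi
          rcases i with _ | i
          · simpa using hA
          · have := H i (by omega)
            have e : t + 1 + (i + 1) = t + 1 + 1 + i := by omega
            rwa [e]
        · intro H i hi
          have := H (i + 1) (by omega)
          have e : t + 1 + (i + 1) = t + 1 + 1 + i := by omega
          rwa [e] at this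
      · rw [if_neg hA, zero_mul]
        rw [if_neg]
        intro H
        exact hA (by simpa using H 0 (by omega))
    rw [← h2]
    refine le_trans ?_ h1
    have h3 : ∫⁻ ω, F' (frestrictLe (t + 1) ω) * g G (B' (frestrictLe (t + 1) ω)) j (ω (t + 1))
          ∂(walkLaw G ε S v) =
        ∫⁻ ω, (fun (h : (i : Finset.Iic t) → V) (y : V) =>
          F h * ((if y ∈ B h then 1 else 0) * g G (B h) j y)) (frestrictLe t ω) (ω (t + 1))
          ∂(walkLaw G ε S v) := by
      refine lintegral_congr fun ω => ?_
      change F (frestrictLe t ω) * (if ω (t + 1) ∈ B (frestrictLe t ω) then 1 else 0) * _ = _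
      rw [mul_assoc]
      rfl
    have h4 := h3.trans (one_step G ε S v t (fun (h : (i : Finset.Iic t) → V) (y : V) =>
          F h * ((if y ∈ B h then 1 else 0) * g G (B h) j y)))
    rw [h4, pow_succ, mul_assoc]
    gcongr
    rw [← lintegral_const_mul' _ _ (by simp)]
    refine lintegral_mono fun ω => ?_
    simp only
    rw [lintegral_const_mul _ (measurable_of_finite _)]
    calc (toNNReal (σ ε) : ℝ≥0∞) * (F (frestrictLe t ω) * g G (B (frestrictLe t ω)) (j + 1) (ω t))
        = F (frestrictLe t ω) * ((toNNReal (σ ε) : ℝ≥0∞) *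
            ∑ z, pr G (ω t) z * ((if z ∈ B (frestrictLe t ω) then 1 else 0) *
              g G (B (frestrictLe t ω)) j z)) := by
          rw [g_succ]
          have : ∑ z, pr G (ω t) z * ((if z ∈ B (frestrictLe t ω) then 1 else 0) *
              g G (B (frestrictLe t ω)) j z) =
              ∑ z ∈ B (frestrictLe t ω), pr G (ω t) z * g G (B (frestrictLe t ω)) j z := by
            rw [← Finset.sum_filter_add_sum_filter_not Finset.univ
              (fun z => z ∈ B (frestrictLe t ω))]
            rw [Finset.sum_eq_zero (s := Finset.univ.filter fun z => z ∉ B (frestrictLe t ω)),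
              add_zero]
            · have : Finset.univ.filter (fun z => z ∈ B (frestrictLe t ω)) =
                  B (frestrictLe t ω) := by ext; simp
              rw [this]
              refine Finset.sum_congr rfl fun z hz => ?_
              rw [if_pos hz, one_mul]
            · intro z hz
              rw [Finset.mem_filter] at hz
              rw [if_neg hz.2, zero_mul, mul_zero]
          rw [this]
          ring
      _ ≤ _ := by
          gcongr
          exact lintegral_stepLaw_ge G ε S t (frestrictLe t ω)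
            (fun z => (if z ∈ B (frestrictLe t ω) then 1 else 0) * g G (B (frestrictLe t ω)) j z)

end Pool.Agent.MP_763ca5_pr
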